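import Mathlib
import Pool.Agent.H130R4.DA5

/-!
# Projective tensor squares of `l_1`-sums
-/

set_option autoImplicit false
set_option synthInstance.maxHeartbeats 400000

open Pool.Agent.H130R4.DA WithLp
open scoped TensorProduct

namespace Pool.Agent.Y344.Dau

variable {𝕜 : Type*} [RCLike 𝕜]

section mp

variable {X : Type*} [NormedAddCommGroup X] [NormedSpace 𝕜 X]
  {Y : Type*} [NormedAddCommGroup Y] [NormedSpace 𝕜 Y]
  {X' : Type*} [NormedAddCommGroup X'] [NormedSpace 𝕜 X']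
  {Y' : Type*} [NormedAddCommGroup Y'] [NormedSpace 𝕜 Y']

/-- The tensor product of two operators, on the algebraic tensor product. -/
noncomputable def amap (A : X →L[𝕜] X') (B : Y →L[𝕜] Y') :
    ProjTensor 𝕜 X Y →ₗ[𝕜] ProjTensor 𝕜 X' Y' :=
  (TensorProduct.map (A : X →ₗ[𝕜] X') (B : Y →ₗ[𝕜] Y') : X ⊗[𝕜] Y →ₗ[𝕜] X' ⊗[𝕜] Y')

theorem amap_tmul (A : X →L[𝕜] X') (B : Y →L[𝕜] Y') (x : X) (y : Y) :
    amap A B (ProjTensor.tmul 𝕜 x y) = ProjTensor.tmul 𝕜 (A x) (B y) :=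
  TensorProduct.map_tmul _ _ _ _

/-- From representations to norms. -/
theorem le_norm_of_rep (t : ProjTensor 𝕜 X Y) (a : ℝ)
    (h : ∀ (n : ℕ) (x : Fin n → X) (y : Fin n → Y), t = ∑ i, ProjTensor.tmul 𝕜 (x i) (y i) →
      a ≤ ∑ i, ‖x i‖ * ‖y i‖) : a ≤ ‖t‖ := by
  rw [ProjTensor.norm_def]
  refine le_csInf t.repSums_nonempty ?_
  rintro r ⟨n, x, y, ht, rfl⟩
  exact h n x y ht

theorem norm_amap_le (A : X →L[𝕜] X') (B : Y →L[𝕜] Y') (t : ProjTensor 𝕜 X Y) :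
    ‖amap A B t‖ ≤ ‖A‖ * ‖B‖ * ‖t‖ := by
  by_cases hz : ‖A‖ * ‖B‖ = 0
  · have h0 : ∀ x y, ‖ProjTensor.tmul 𝕜 (A x) (B y)‖ ≤ 0 := by
      intro x y
      refine (norm_tmul_le _ _).trans ?_
      have h1 := mul_le_mul (A.le_opNorm x) (B.le_opNorm y) (norm_nonneg _) (by positivity)
      refine h1.trans (le_of_eq ?_)
      calc ‖A‖ * ‖x‖ * (‖B‖ * ‖y‖) = (‖A‖ * ‖B‖) * (‖x‖ * ‖y‖) := by ring
        _ = 0 := by rw [hz, zero_mul]
    rw [hz, zero_mul]
    obtain ⟨r, n, x, y, ht, -⟩ := t.repSums_nonempty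
    rw [ht, map_sum]
    refine (norm_sum_le _ _).trans ?_
    exact Finset.sum_nonpos fun i _ => by rw [amap_tmul]; exact h0 _ _
  · have hpos : 0 < ‖A‖ * ‖B‖ := lt_of_le_of_ne (by positivity) (Ne.symm hz)
    have h1 : ‖amap A B t‖ / (‖A‖ * ‖B‖) ≤ ‖t‖ := by
      refine le_norm_of_rep t _ fun n x y ht => ?_
      rw [div_le_iff₀ hpos, ht, map_sum, Finset.sum_mul]
      refine (norm_sum_le _ _).trans (Finset.sum_le_sum fun i _ => ?_)
      rw [amap_tmul]
      refine (norm_tmul_le _ _).trans ?_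
      refine (mul_le_mul (A.le_opNorm _) (B.le_opNorm _) (norm_nonneg _) (by positivity)).trans ?_
      exact le_of_eq (by ring)
    rw [div_le_iff₀ hpos] at h1
    linarith

/-- The tensor product of two operators, followed by the inclusion. -/
noncomputable def cmap (A : X →L[𝕜] X') (B : Y →L[𝕜] Y') :
    ProjTensor 𝕜 X Y →L[𝕜] ProjectiveTensorProduct 𝕜 X' Y' :=
  LinearMap.mkContinuous ((incl (𝕜 := 𝕜) (X := X') (Y := Y')).comp (amap A B)) (‖A‖ * ‖B‖)
    fun t => by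
      show ‖incl (amap A B t)‖ ≤ _
      rw [norm_incl]
      exact norm_amap_le A B t

/-- The tensor product of two operators. -/
noncomputable def pmap (A : X →L[𝕜] X') (B : Y →L[𝕜] Y') :
    ProjectiveTensorProduct 𝕜 X Y →L[𝕜] ProjectiveTensorProduct 𝕜 X' Y' :=
  (cmap A B).extend (UniformSpace.Completion.toComplL (𝕜 := 𝕜) (E := ProjTensor 𝕜 X Y))

theorem pmap_incl (A : X →L[𝕜] X') (B : Y →L[𝕜] Y') (t : ProjTensor 𝕜 X Y) :
    pmap A B (incl t) = incl (amap A B t) :=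
  ContinuousLinearMap.extend_eq _ UniformSpace.Completion.denseRange_coe
    (UniformSpace.Completion.isUniformInducing_coe _) t

theorem pmap_tmul (A : X →L[𝕜] X') (B : Y →L[𝕜] Y') (x : X) (y : Y) :
    pmap A B (incl (ProjTensor.tmul 𝕜 x y)) = incl (ProjTensor.tmul 𝕜 (A x) (B y)) := by
  rw [pmap_incl, amap_tmul]

theorem incl_dense : DenseRange (fun t : ProjTensor 𝕜 X Y =>
    (incl t : ProjectiveTensorProduct 𝕜 X Y)) :=
  UniformSpace.Completion.denseRange_coe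

end mp

section Lproj

variable {W : Type*} [NormedAddCommGroup W] [NormedSpace 𝕜 W]
  {V : Type*} [NormedAddCommGroup V] [NormedSpace 𝕜 V]

/-- **Transfer to an `L`-summand**: an operator of rank one on `W` gives one on `V`, with the same
norm, and the norm of `I + T` is not larger than that on `W`, or one. -/
theorem transfer (ι : W →L[𝕜] V) (P : V →L[𝕜] W) (hPι : ∀ w, P (ι w) = w)
    (hι : ∀ w, ‖ι w‖ ≤ ‖w‖) (hL : ∀ v, ‖v - ι (P v)‖ + ‖P v‖ ≤ ‖v‖) (T : W →L[𝕜] W)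
    (hT : RankOne T) :
    RankOne (ι.comp (T.comp P)) ∧ ‖ι.comp (T.comp P)‖ = ‖T‖ ∧
      ‖ContinuousLinearMap.id 𝕜 V + ι.comp (T.comp P)‖ ≤
        max 1 ‖ContinuousLinearMap.id 𝕜 W + T‖ := by
  have hP : ∀ v, ‖P v‖ ≤ ‖v‖ := fun v => by linarith [hL v, norm_nonneg (v - ι (P v))]
  have hιn : ∀ w, ‖ι w‖ = ‖w‖ := fun w => le_antisymm (hι w) (by
    have := hP (ι w)
    rwa [hPι] at this)
  refine ⟨?_, ?_, ?_⟩
  · have hinj : Function.Injective (ι : W →ₗ[𝕜] V) := fun a b hab => by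
      have := congrArg P (show ι a = ι b from hab)
      rwa [hPι, hPι] at this
    have hsurj : Function.Surjective (P : V →ₗ[𝕜] W) := fun w => ⟨ι w, hPι w⟩
    have h1 : LinearMap.range ((ι.comp (T.comp P) : V →L[𝕜] V) : V →ₗ[𝕜] V) =
        (LinearMap.range (T : W →ₗ[𝕜] W)).map (ι : W →ₗ[𝕜] V) := by
      ext v
      constructor
      · rintro ⟨u, rfl⟩
        exact ⟨T (P u), ⟨P u, rfl⟩, rfl⟩
      · rintro ⟨w, ⟨u, rfl⟩, rfl⟩
        exact ⟨ι u, by
          show ι (T (P (ι u))) = ι (T u)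
          rw [hPι]⟩
    show Module.finrank 𝕜 (LinearMap.range ((ι.comp (T.comp P) : V →L[𝕜] V) : V →ₗ[𝕜] V)) = 1
    rw [h1]
    have h2 := (Submodule.equivMapOfInjective (ι : W →ₗ[𝕜] V) hinj
      (LinearMap.range (T : W →ₗ[𝕜] W))).finrank_eq
    rw [← h2]
    exact hT
  · refine le_antisymm ?_ ?_
    · refine ContinuousLinearMap.opNorm_le_bound _ (norm_nonneg _) fun v => ?_
      show ‖ι (T (P v))‖ ≤ _
      rw [hιn]
      exact (T.le_opNorm _).trans (mul_le_mul_of_nonneg_left (hP v) (norm_nonneg _))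
    · refine ContinuousLinearMap.opNorm_le_bound _ (norm_nonneg _) fun w => ?_
      have h1 : ‖T w‖ = ‖(ι.comp (T.comp P)) (ι w)‖ := by
        show ‖T w‖ = ‖ι (T (P (ι w)))‖
        rw [hPι, hιn]
      rw [h1]
      refine ((ι.comp (T.comp P)).le_opNorm _).trans ?_
      rw [hιn]
  · refine ContinuousLinearMap.opNorm_le_bound _ (le_max_of_le_left zero_le_one) fun v => ?_
    have h1 : (ContinuousLinearMap.id 𝕜 V + ι.comp (T.comp P)) v =
        (v - ι (P v)) + ι ((ContinuousLinearMap.id 𝕜 W + T) (P v)) := by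
      show v + ι (T (P v)) = (v - ι (P v)) + ι (P v + T (P v))
      rw [map_add]
      abel
    rw [h1]
    refine (norm_add_le _ _).trans ?_
    rw [hιn]
    have h2 := (ContinuousLinearMap.id 𝕜 W + T).le_opNorm (P v)
    set m := max 1 ‖ContinuousLinearMap.id 𝕜 W + T‖ with hm
    have h3 : ‖ContinuousLinearMap.id 𝕜 W + T‖ * ‖P v‖ ≤ m * ‖P v‖ :=
      mul_le_mul_of_nonneg_right (le_max_right _ _) (norm_nonneg _)
    have h4 : ‖v - ι (P v)‖ ≤ m * ‖v - ι (P v)‖ :=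
      le_mul_of_one_le_left (norm_nonneg _) (le_max_left _ _)
    have h5 : m * (‖v - ι (P v)‖ + ‖P v‖) ≤ m * ‖v‖ :=
      mul_le_mul_of_nonneg_left (hL v) (le_max_of_le_left zero_le_one)
    linarith

end Lproj

section l1

variable (𝕜) (X : Type*) [NormedAddCommGroup X] [NormedSpace 𝕜 X]
  (Y : Type*) [NormedAddCommGroup Y] [NormedSpace 𝕜 Y]

/-- The first inclusion. -/
noncomputable def inL : X →L[𝕜] WithLp 1 (X × Y) :=
  LinearMap.mkContinuous
    { toFun := fun x => WithLp.toLp 1 (x, 0)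
      map_add' := fun x y => by
        rw [← WithLp.toLp_add, Prod.mk_add_mk, add_zero]
      map_smul' := fun c x => by
        rw [RingHom.id_apply, ← WithLp.toLp_smul, Prod.smul_mk, smul_zero] } 1 (fun x => by
      rw [one_mul]
      exact (WithLp.norm_toLp_fst 1 X Y x).le)

/-- The second inclusion. -/
noncomputable def inR : Y →L[𝕜] WithLp 1 (X × Y) :=
  LinearMap.mkContinuous
    { toFun := fun x => WithLp.toLp 1 (0, x)
      map_add' := fun x y => by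
        rw [← WithLp.toLp_add, Prod.mk_add_mk, add_zero]
      map_smul' := fun c x => by
        rw [RingHom.id_apply, ← WithLp.toLp_smul, Prod.smul_mk, smul_zero] } 1 (fun x => by
      rw [one_mul]
      exact (WithLp.norm_toLp_snd 1 X Y x).le)

theorem l1_norm (z : WithLp 1 (X × Y)) : ‖z‖ = ‖z.fst‖ + ‖z.snd‖ :=
  WithLp.prod_norm_eq_of_L1 _

/-- The first projection. -/
noncomputable def prL : WithLp 1 (X × Y) →L[𝕜] X :=
  LinearMap.mkContinuous
    { toFun := fun z => z.fst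
      map_add' := fun _ _ => rfl
      map_smul' := fun _ _ => rfl } 1 (fun z => by
      rw [one_mul, l1_norm X Y z]
      exact le_add_of_nonneg_right (norm_nonneg _))

/-- The second projection. -/
noncomputable def prR : WithLp 1 (X × Y) →L[𝕜] Y :=
  LinearMap.mkContinuous
    { toFun := fun z => z.snd
      map_add' := fun _ _ => rfl
      map_smul' := fun _ _ => rfl } 1 (fun z => by
      rw [one_mul, l1_norm X Y z]
      exact le_add_of_nonneg_left (norm_nonneg _))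

variable {X Y}

theorem prL_apply (z : WithLp 1 (X × Y)) : prL 𝕜 X Y z = z.fst := rfl

theorem prR_apply (z : WithLp 1 (X × Y)) : prR 𝕜 X Y z = z.snd := rfl

theorem prL_inL (x : X) : prL 𝕜 X Y (inL 𝕜 X Y x) = x := rfl

theorem prR_inR (y : Y) : prR 𝕜 X Y (inR 𝕜 X Y y) = y := rfl

theorem norm_inL (x : X) : ‖inL 𝕜 X Y x‖ = ‖x‖ := WithLp.norm_toLp_fst 1 X Y x

theorem norm_inR (y : Y) : ‖inR 𝕜 X Y y‖ = ‖y‖ := WithLp.norm_toLp_snd 1 X Y y

theorem inL_add_inR (z : WithLp 1 (X × Y)) : inL 𝕜 X Y z.fst + inR 𝕜 X Y z.snd = z := by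
  obtain ⟨⟨x, y⟩, rfl⟩ := WithLp.toLp_surjective 1 z
  show WithLp.toLp 1 (x, (0 : Y)) + WithLp.toLp 1 ((0 : X), y) = WithLp.toLp 1 (x, y)
  rw [← WithLp.toLp_add, Prod.mk_add_mk, add_zero, zero_add]

variable (X Y)

/-- The inclusion of the tensor product of `X` and `Y` in the tensor square of the sum. -/
noncomputable def tin : ProjectiveTensorProduct 𝕜 X Y →L[𝕜]
    ProjectiveTensorProduct 𝕜 (WithLp 1 (X × Y)) (WithLp 1 (X × Y)) :=
  pmap (inL 𝕜 X Y) (inR 𝕜 X Y)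

/-- The projection. -/
noncomputable def tpr : ProjectiveTensorProduct 𝕜 (WithLp 1 (X × Y)) (WithLp 1 (X × Y)) →L[𝕜]
    ProjectiveTensorProduct 𝕜 X Y :=
  pmap (prL 𝕜 X Y) (prR 𝕜 X Y)

variable {X Y}

theorem tpr_tin (w : ProjectiveTensorProduct 𝕜 X Y) : tpr 𝕜 X Y (tin 𝕜 X Y w) = w := by
  refine incl_dense.induction_on w ?_ ?_
  · exact isClosed_eq ((tpr 𝕜 X Y).continuous.comp (tin 𝕜 X Y).continuous) continuous_id
  · intro t
    show tpr 𝕜 X Y (tin 𝕜 X Y (incl t)) = incl t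
    unfold tpr tin
    rw [pmap_incl, pmap_incl]
    congr 1
    obtain ⟨r, n, x, y, ht, -⟩ := t.repSums_nonempty
    rw [ht, map_sum, map_sum]
    refine Finset.sum_congr rfl fun i _ => ?_
    rw [amap_tmul, amap_tmul, prL_inL, prR_inR]

theorem norm_tin_le (w : ProjectiveTensorProduct 𝕜 X Y) : ‖tin 𝕜 X Y w‖ ≤ ‖w‖ := by
  refine incl_dense.induction_on w ?_ ?_
  · exact isClosed_le ((tin 𝕜 X Y).continuous.norm) continuous_norm
  · intro t
    show ‖tin 𝕜 X Y (incl t)‖ ≤ ‖(incl t : ProjectiveTensorProduct 𝕜 X Y)‖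
    unfold tin
    rw [pmap_incl, norm_incl, norm_incl]
    refine le_norm_of_rep t _ fun n x y ht => ?_
    rw [ht, map_sum]
    refine (norm_sum_le _ _).trans (Finset.sum_le_sum fun i _ => ?_)
    rw [amap_tmul]
    refine (norm_tmul_le _ _).trans (le_of_eq ?_)
    rw [norm_inL, norm_inR]

/-- The projection is an `L`-projection. -/
theorem tensor_L (v : ProjectiveTensorProduct 𝕜 (WithLp 1 (X × Y)) (WithLp 1 (X × Y))) :
    ‖v - tin 𝕜 X Y (tpr 𝕜 X Y v)‖ + ‖tpr 𝕜 X Y v‖ ≤ ‖v‖ := by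
  refine incl_dense.induction_on v ?_ ?_
  · refine isClosed_le (Continuous.add ?_ (tpr 𝕜 X Y).continuous.norm) continuous_norm
    exact (continuous_id.sub ((tin 𝕜 X Y).continuous.comp (tpr 𝕜 X Y).continuous)).norm
  · intro t
    show ‖incl t - tin 𝕜 X Y (tpr 𝕜 X Y (incl t))‖ + ‖tpr 𝕜 X Y (incl t)‖ ≤
      ‖(incl t : ProjectiveTensorProduct 𝕜 (WithLp 1 (X × Y)) (WithLp 1 (X × Y)))‖
    unfold tpr tin
    rw [pmap_incl, pmap_incl, ← map_sub, norm_incl, norm_incl, norm_incl]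
    refine le_norm_of_rep t _ fun n z z' ht => ?_
    have h1 : t - amap (inL 𝕜 X Y) (inR 𝕜 X Y) (amap (prL 𝕜 X Y) (prR 𝕜 X Y) t) =
        ∑ i, (ProjTensor.tmul 𝕜 (inL 𝕜 X Y (z i).fst) (inL 𝕜 X Y (z' i).fst) +
          ProjTensor.tmul 𝕜 (inR 𝕜 X Y (z i).snd) (z' i)) := by
      rw [ht, map_sum, map_sum, ← Finset.sum_sub_distrib]
      refine Finset.sum_congr rfl fun i _ => ?_
      rw [amap_tmul, amap_tmul, prL_apply, prR_apply]
      have e1 : ProjTensor.tmul 𝕜 (z i) (z' i) =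
          ProjTensor.tmul 𝕜 (inL 𝕜 X Y (z i).fst) (inL 𝕜 X Y (z' i).fst) +
          ProjTensor.tmul 𝕜 (inL 𝕜 X Y (z i).fst) (inR 𝕜 X Y (z' i).snd) +
          ProjTensor.tmul 𝕜 (inR 𝕜 X Y (z i).snd) (z' i) := by
        have e2 : ProjTensor.tmul 𝕜 (z i) (z' i) =
            ProjTensor.tmul 𝕜 (inL 𝕜 X Y (z i).fst + inR 𝕜 X Y (z i).snd) (z' i) := by
          rw [inL_add_inR]
        have e3 : ProjTensor.tmul 𝕜 (inL 𝕜 X Y (z i).fst) (z' i) =
            ProjTensor.tmul 𝕜 (inL 𝕜 X Y (z i).fst)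
              (inL 𝕜 X Y (z' i).fst + inR 𝕜 X Y (z' i).snd) := by
          rw [inL_add_inR]
        have e4 : ∀ (a b c : WithLp 1 (X × Y)), ProjTensor.tmul 𝕜 (a + b) c =
            ProjTensor.tmul 𝕜 a c + ProjTensor.tmul 𝕜 b c := fun a b c =>
          TensorProduct.add_tmul a b c
        have e5 : ∀ (a b c : WithLp 1 (X × Y)), ProjTensor.tmul 𝕜 a (b + c) =
            ProjTensor.tmul 𝕜 a b + ProjTensor.tmul 𝕜 a c := fun a b c =>
          TensorProduct.tmul_add a b c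
        rw [e2, e4, e3, e5]
      rw [e1]
      abel
    have h2 : amap (prL 𝕜 X Y) (prR 𝕜 X Y) t =
        ∑ i, ProjTensor.tmul 𝕜 (z i).fst (z' i).snd := by
      rw [ht, map_sum]
      refine Finset.sum_congr rfl fun i _ => ?_
      rw [amap_tmul, prL_apply, prR_apply]
    rw [h1, h2]
    refine (add_le_add (norm_sum_le _ _) (norm_sum_le _ _)).trans ?_
    rw [← Finset.sum_add_distrib]
    refine Finset.sum_le_sum fun i _ => ?_
    have h3 := norm_add_le (ProjTensor.tmul 𝕜 (inL 𝕜 X Y (z i).fst) (inL 𝕜 X Y (z' i).fst))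
      (ProjTensor.tmul 𝕜 (inR 𝕜 X Y (z i).snd) (z' i))
    have h4 := norm_tmul_le (𝕜 := 𝕜) (inL 𝕜 X Y (z i).fst) (inL 𝕜 X Y (z' i).fst)
    have h5 := norm_tmul_le (𝕜 := 𝕜) (inR 𝕜 X Y (z i).snd) (z' i)
    have h6 := norm_tmul_le (𝕜 := 𝕜) (z i).fst (z' i).snd
    rw [norm_inL, norm_inL] at h4
    rw [norm_inR] at h5
    have h7 : ‖z i‖ * ‖z' i‖ = ‖(z i).fst‖ * ‖(z' i).fst‖ + ‖(z i).snd‖ * ‖z' i‖ +
        ‖(z i).fst‖ * ‖(z' i).snd‖ := by
      rw [l1_norm X Y (z i), l1_norm X Y (z' i)]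
      ring
    rw [h7]
    linarith

end l1

end Pool.Agent.Y344.Dau
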