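import Mathlib
import Pool.Agent.W700.Dau.DPC

/-!
# Vector-valued continuous functions on `[0,1]` have the Daugavet property
-/

set_option autoImplicit false

open Pool.Agent.H130R4.DA Pool.Agent.W700.Dau

namespace Pool.Agent.Y344.Dau

variable {W : Type*} [NormedAddCommGroup W] [NormedSpace ℝ W]

theorem dp_CW [Nontrivial W] : DP C(unitInterval, W) := by
  intro e φ ε hε
  -- a point where `|e|` is maximal
  obtain ⟨s0, -, hs0⟩ := isCompact_univ.exists_isMaxOn (Set.univ_nonempty (α := unitInterval))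
    (f := fun s => ‖e s‖) (by fun_prop)
  have hs0' : ‖e‖ ≤ ‖e s0‖ := (ContinuousMap.norm_le _ (norm_nonneg _)).2 fun s => hs0 (Set.mem_univ s)
  obtain ⟨σ, hσ1, hσ2⟩ : ∃ σ : W, ‖σ‖ = 1 ∧ ‖σ + e s0‖ = 1 + ‖e s0‖ := by
    by_cases h : e s0 = 0
    · obtain ⟨σ, hσ⟩ := exists_norm_eq W (zero_le_one (α := ℝ))
      exact ⟨σ, hσ, by rw [h, add_zero, norm_zero, add_zero, hσ]⟩
    · have hn : 0 < ‖e s0‖ := norm_pos_iff.2 h
      refine ⟨‖e s0‖⁻¹ • e s0, ?_, ?_⟩
      · rw [norm_smul, norm_inv, norm_norm, inv_mul_cancel₀ hn.ne']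
      · have h1 : ‖e s0‖⁻¹ • e s0 + e s0 = (‖e s0‖⁻¹ + 1) • e s0 := by rw [add_smul, one_smul]
        rw [h1, norm_smul, Real.norm_eq_abs, abs_of_pos (by positivity), add_mul,
          inv_mul_cancel₀ hn.ne', one_mul]
  -- a neighbourhood
  obtain ⟨δ, hδ0, hδ⟩ := Metric.continuousAt_iff.1 (e.continuous.continuousAt (x := s0)) ε hε
  obtain ⟨x0, hx0, hφx0⟩ := exists_near_norming φ (ε / 2) (by linarith)
  have hx0' : ∀ s, ‖x0 s‖ ≤ 1 := fun s => (ContinuousMap.norm_coe_le_norm x0 s).trans hx0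
  -- number of bumps
  set N : ℕ := ⌈4 * ‖φ‖ / ε⌉₊ + 1 with hN
  have hN0 : (0 : ℝ) < N := by rw [hN]; positivity
  have hN1 : 2 * ‖φ‖ ≤ N * (ε / 2) := by
    have h1 : 4 * ‖φ‖ / ε ≤ N := by
      rw [hN]; push_cast
      have := Nat.le_ceil (4 * ‖φ‖ / ε)
      linarith
    rw [div_le_iff₀ hε] at h1
    linarith
  set τ : ℝ := min (δ / 2) (1 / 2) with hτ
  have hτ0 : 0 < τ := lt_min (by linarith) (by norm_num)
  have hτ1 : τ ≤ δ / 2 := min_le_left _ _
  have hτ2 : τ ≤ 1 / 2 := min_le_right _ _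
  set r : ℝ := τ / (2 * (N + 1)) with hr
  have hr0 : 0 < r := by positivity
  have hr1 : 2 * r * (N + 1) = τ := by rw [hr]; field_simp
  let a : Fin N → ℝ := fun i => 2 * r * ((i : ℕ) + 1)
  have ha0 : ∀ i, 0 < a i := fun i => by positivity
  have ha1 : ∀ i, a i < τ := fun i => by
    have h1 : ((i : ℕ) : ℝ) < N := by exact_mod_cast i.2
    rw [← hr1]
    exact mul_lt_mul_of_pos_left (by linarith) (by positivity)
  let χ : Fin N → C(unitInterval, ℝ) := fun i =>
    ⟨fun s => max 0 (1 - |(|(s : ℝ) - s0|) - a i| / r), by fun_prop⟩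
  have hχ : ∀ i s, χ i s = max 0 (1 - |(|(s : ℝ) - s0|) - a i| / r) := fun _ _ => rfl
  have hχ0 : ∀ i s, 0 ≤ χ i s := fun i s => le_max_left _ _
  have hχ1 : ∀ i s, χ i s ≤ 1 := fun i s => by
    rw [hχ]
    refine max_le zero_le_one ?_
    have : 0 ≤ |(|(s : ℝ) - s0|) - a i| / r := by positivity
    linarith
  have hχne : ∀ i s, χ i s ≠ 0 → |(|(s : ℝ) - s0|) - a i| < r := by
    intro i s h
    by_contra hcon
    push Not at hcon
    apply h
    rw [hχ]
    refine max_eq_left ?_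
    have : 1 ≤ |(|(s : ℝ) - s0|) - a i| / r := by rwa [le_div_iff₀ hr0, one_mul]
    linarith
  have hχdisj : ∀ i j s, χ i s ≠ 0 → χ j s ≠ 0 → i = j := by
    intro i j s hi hj
    have h1 := abs_lt.1 (hχne i s hi)
    have h2 := abs_lt.1 (hχne j s hj)
    by_contra hij
    rcases lt_or_gt_of_ne (fun h => hij (Fin.ext h) : (i : ℕ) ≠ j) with h | h
    · have h3 : ((i : ℕ) : ℝ) + 1 ≤ (j : ℕ) := by exact_mod_cast h
      have h4 : a i + 2 * r ≤ a j := by
        have : 2 * r * (((i : ℕ) : ℝ) + 1 + 1) ≤ 2 * r * (((j : ℕ) : ℝ) + 1) :=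
          mul_le_mul_of_nonneg_left (by linarith) (by positivity)
        simp only [a]
        linarith
      linarith
    · have h3 : ((j : ℕ) : ℝ) + 1 ≤ (i : ℕ) := by exact_mod_cast h
      have h4 : a j + 2 * r ≤ a i := by
        have : 2 * r * (((j : ℕ) : ℝ) + 1 + 1) ≤ 2 * r * (((i : ℕ) : ℝ) + 1) :=
          mul_le_mul_of_nonneg_left (by linarith) (by positivity)
        simp only [a]
        linarith
      linarith
  have hχsum : ∀ s, ∑ i, χ i s ≤ 1 := by
    intro s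
    by_cases h : ∃ i, χ i s ≠ 0
    · obtain ⟨i, hi⟩ := h
      rw [Finset.sum_eq_single i]
      · exact hχ1 i s
      · intro j _ hj
        by_contra hcon
        exact hj (hχdisj j i s hcon hi)
      · intro h; exact absurd (Finset.mem_univ i) h
    · push Not at h
      rw [Finset.sum_eq_zero fun i _ => h i]
      exact zero_le_one
  let hh : Fin N → C(unitInterval, W) := fun i =>
    ⟨fun s => χ i s • (σ - x0 s), by fun_prop⟩
  have hhh : ∀ i s, hh i s = χ i s • (σ - x0 s) := fun _ _ => rfl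
  have hsum : ∑ i, |φ (hh i)| ≤ 2 * ‖φ‖ := by
    let sg : Fin N → ℝ := fun i => if 0 ≤ φ (hh i) then 1 else -1
    have hsg : ∀ i, |φ (hh i)| = sg i * φ (hh i) := by
      intro i
      simp only [sg]
      split_ifs with h
      · rw [abs_of_nonneg h, one_mul]
      · rw [abs_of_neg (lt_of_not_ge h)]; ring
    have hsg1 : ∀ i, |sg i| = 1 := by
      intro i
      simp only [sg]
      split_ifs <;> norm_num
    have h1 : ∑ i, |φ (hh i)| = φ (∑ i, sg i • hh i) := by
      rw [map_sum]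
      exact Finset.sum_congr rfl fun i _ => by rw [hsg i, map_smul, smul_eq_mul]
    rw [h1]
    have h2 : ‖∑ i, sg i • hh i‖ ≤ 2 := by
      rw [ContinuousMap.norm_le _ (by norm_num)]
      intro s
      rw [ContinuousMap.sum_apply]
      refine (norm_sum_le _ _).trans ?_
      calc ∑ i, ‖(sg i • hh i) s‖ ≤ ∑ i, χ i s * 2 := by
            refine Finset.sum_le_sum fun i _ => ?_
            rw [ContinuousMap.smul_apply, norm_smul, hhh, Real.norm_eq_abs, hsg1,
              one_mul, norm_smul, Real.norm_eq_abs, abs_of_nonneg (hχ0 i s)]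
            refine mul_le_mul_of_nonneg_left ?_ (hχ0 i s)
            calc ‖σ - x0 s‖ ≤ ‖σ‖ + ‖x0 s‖ := norm_sub_le _ _
              _ ≤ 2 := by rw [hσ1]; linarith [hx0' s]
        _ = (∑ i, χ i s) * 2 := by rw [Finset.sum_mul]
        _ ≤ 2 := by linarith [hχsum s]
    calc φ (∑ i, sg i • hh i) ≤ ‖φ‖ * ‖∑ i, sg i • hh i‖ :=
          (le_abs_self _).trans (φ.le_opNorm _)
      _ ≤ ‖φ‖ * 2 := mul_le_mul_of_nonneg_left h2 (norm_nonneg _)
      _ = 2 * ‖φ‖ := mul_comm _ _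
  obtain ⟨i, -, hi⟩ : ∃ i ∈ (Finset.univ : Finset (Fin N)), |φ (hh i)| ≤ ε / 2 := by
    refine Finset.exists_le_of_sum_le ?_ ?_
    · refine ⟨⟨0, ?_⟩, Finset.mem_univ _⟩
      rw [hN]; exact Nat.succ_pos _
    · rw [Finset.sum_const, Finset.card_univ, Fintype.card_fin, nsmul_eq_mul]
      exact hsum.trans hN1
  -- the point
  obtain ⟨s1, hs1⟩ : ∃ s1 : unitInterval, |(s1 : ℝ) - s0| = a i := by
    have h1 := ha0 i
    have h2 := ha1 i
    have h3 := s0.2.1
    have h4 := s0.2.2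
    rcases le_total (s0 : ℝ) (1 / 2) with h | h
    · refine ⟨⟨(s0 : ℝ) + a i, ⟨by linarith, by linarith⟩⟩, ?_⟩
      show |(s0 : ℝ) + a i - s0| = a i
      rw [add_sub_cancel_left, abs_of_pos h1]
    · refine ⟨⟨(s0 : ℝ) - a i, ⟨by linarith, by linarith⟩⟩, ?_⟩
      show |(s0 : ℝ) - a i - s0| = a i
      rw [show (s0 : ℝ) - a i - s0 = -(a i) by ring, abs_neg, abs_of_pos h1]
  have hχs1 : χ i s1 = 1 := by
    rw [hχ, hs1]
    simp
  refine ⟨x0 + hh i, ?_, ?_, ?_⟩
  · rw [ContinuousMap.norm_le _ zero_le_one]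
    intro s
    have h1 : (x0 + hh i) s = (1 - χ i s) • x0 s + χ i s • σ := by
      rw [ContinuousMap.add_apply, hhh, smul_sub, sub_smul, one_smul]; abel
    rw [h1]
    calc ‖(1 - χ i s) • x0 s + χ i s • σ‖ ≤ ‖(1 - χ i s) • x0 s‖ + ‖χ i s • σ‖ := norm_add_le _ _
      _ = (1 - χ i s) * ‖x0 s‖ + χ i s := by
          rw [norm_smul, norm_smul, hσ1, Real.norm_eq_abs, Real.norm_eq_abs,
            abs_of_nonneg (hχ0 i s), abs_of_nonneg (by linarith [hχ1 i s]), mul_one]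
      _ ≤ (1 - χ i s) * 1 + χ i s := by
          have := mul_le_mul_of_nonneg_left (hx0' s) (show 0 ≤ 1 - χ i s by linarith [hχ1 i s])
          linarith
      _ = 1 := by ring
  · rw [map_add]
    have := (abs_le.1 hi).1
    linarith
  · have h1 : (x0 + hh i + e) s1 = σ + e s1 := by
      rw [ContinuousMap.add_apply, ContinuousMap.add_apply, hhh, hχs1, one_smul]; abel
    have h2 : ‖(x0 + hh i + e) s1‖ ≤ ‖x0 + hh i + e‖ := ContinuousMap.norm_coe_le_norm _ _
    rw [h1] at h2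
    have h3 : dist (e s1) (e s0) < ε := by
      apply hδ
      rw [Subtype.dist_eq, Real.dist_eq, hs1]
      linarith [ha1 i]
    rw [dist_eq_norm] at h3
    have h4 : ‖σ + e s0‖ ≤ ‖σ + e s1‖ + ‖e s1 - e s0‖ := by
      have h5 : σ + e s0 = (σ + e s1) - (e s1 - e s0) := by abel
      rw [h5]
      exact norm_sub_le _ _
    rw [hσ2] at h4
    linarith

/-- The Daugavet property in its convenient form. -/
theorem dp_of_daugavet {E : Type*} [NormedAddCommGroup E] [NormedSpace ℝ E] [Nontrivial E]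
    (h : DaugavetProperty ℝ E) : DP E := by
  -- the case of a unit functional and a nonzero vector
  have key : ∀ (e : E) (f : StrongDual ℝ E) (ε : ℝ), 0 < ε → e ≠ 0 → ‖f‖ = 1 →
      ∃ x : E, ‖x‖ ≤ 1 ∧ 1 - ε ≤ f x ∧ 1 + ‖e‖ - ε ≤ ‖x + e‖ := by
    intro e f ε hε he hf
    have hen : 0 < ‖e‖ := norm_pos_iff.2 he
    set δ : ℝ := min (ε / 2) (ε * ‖e‖) with hδ
    have hδ0 : 0 < δ := lt_min (by linarith) (by positivity)
    have hδ1 : δ ≤ ε / 2 := min_le_left _ _
    have hδ2 : δ ≤ ε * ‖e‖ := min_le_right _ _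
    have hf0 : f ≠ 0 := by
      intro h0
      rw [h0, norm_zero] at hf
      exact zero_ne_one hf
    have hr : RankOne (f.smulRight e) := by
      obtain ⟨v, hv⟩ : ∃ v, f v ≠ 0 := by
        by_contra hcon
        push Not at hcon
        exact hf0 (ContinuousLinearMap.ext hcon)
      have h1 : LinearMap.range ((f.smulRight e : E →L[ℝ] E) : E →ₗ[ℝ] E) = ℝ ∙ e := by
        ext w
        rw [Submodule.mem_span_singleton]
        constructor
        · rintro ⟨u, rfl⟩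
          exact ⟨f u, rfl⟩
        · rintro ⟨c, rfl⟩
          refine ⟨(c / f v) • v, ?_⟩
          show f ((c / f v) • v) • e = c • e
          rw [map_smul, smul_eq_mul, div_mul_cancel₀ _ hv]
      show Module.finrank ℝ (LinearMap.range ((f.smulRight e : E →L[ℝ] E) : E →ₗ[ℝ] E)) = 1
      rw [h1]
      exact finrank_span_singleton he
    have h1 := h (f.smulRight e) hr
    rw [ContinuousLinearMap.norm_smulRight_apply, hf, one_mul] at h1
    obtain ⟨v, hv, hv'⟩ := ContinuousLinearMap.exists_lt_apply_of_lt_opNorm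
      (ContinuousLinearMap.id ℝ E + f.smulRight e)
      (show 1 + ‖e‖ - δ < _ by rw [h1]; linarith)
    have hv2 : 1 + ‖e‖ - δ < ‖v + f v • e‖ := by simpa using hv'
    -- the sign
    obtain ⟨x, hx, hx2, hx3⟩ : ∃ x : E, ‖x‖ < 1 ∧ 1 + ‖e‖ - δ < ‖x + f x • e‖ ∧ 0 ≤ f x := by
      rcases le_total 0 (f v) with h0 | h0
      · exact ⟨v, hv, hv2, h0⟩
      · refine ⟨-v, by rwa [norm_neg], ?_, by rw [map_neg]; linarith⟩
        have h3 : -v + f (-v) • e = -(v + f v • e) := by rw [map_neg, neg_smul]; abel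
        rw [h3, norm_neg]
        exact hv2
    have hfx : f x ≤ 1 := by
      have h4 := (le_abs_self _).trans (f.le_opNorm x)
      rw [hf, one_mul] at h4
      exact h4.trans hx.le
    have h5 : ‖x + f x • e‖ ≤ ‖x‖ + f x * ‖e‖ := by
      refine (norm_add_le _ _).trans ?_
      rw [norm_smul, Real.norm_eq_abs, abs_of_nonneg hx3]
    have h6 : (1 - f x) * ‖e‖ ≤ δ := by nlinarith
    refine ⟨x, hx.le, ?_, ?_⟩
    · have h7 : (1 - f x) * ‖e‖ ≤ ε * ‖e‖ := h6.trans hδ2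
      have h8 := le_of_mul_le_mul_right h7 hen
      linarith
    · have h9 : x + f x • e = (x + e) - (1 - f x) • e := by rw [sub_smul, one_smul]; abel
      have h10 : ‖x + f x • e‖ ≤ ‖x + e‖ + (1 - f x) * ‖e‖ := by
        rw [h9]
        refine (norm_sub_le _ _).trans ?_
        rw [norm_smul, Real.norm_eq_abs, abs_of_nonneg (by linarith)]
      linarith
  -- a unit functional
  have key2 : ∀ (e : E) (φ : StrongDual ℝ E) (ε : ℝ), 0 < ε → e ≠ 0 →
      ∃ x : E, ‖x‖ ≤ 1 ∧ ‖φ‖ - ε ≤ φ x ∧ 1 + ‖e‖ - ε ≤ ‖x + e‖ := by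
    intro e φ ε hε he
    by_cases h0 : φ = 0
    · have hen : 0 < ‖e‖ := norm_pos_iff.2 he
      refine ⟨‖e‖⁻¹ • e, ?_, ?_, ?_⟩
      · rw [norm_smul, norm_inv, norm_norm, inv_mul_cancel₀ hen.ne']
      · rw [h0, norm_zero]
        simp [hε.le]
      · have h1 : ‖e‖⁻¹ • e + e = (‖e‖⁻¹ + 1) • e := by rw [add_smul, one_smul]
        rw [h1, norm_smul, Real.norm_eq_abs, abs_of_pos (by positivity), add_mul,
          inv_mul_cancel₀ hen.ne', one_mul]
        linarith
    · have hn : 0 < ‖φ‖ := norm_pos_iff.2 h0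
      have hf : ‖(‖φ‖⁻¹ : ℝ) • φ‖ = 1 := by
        rw [norm_smul, norm_inv, norm_norm, inv_mul_cancel₀ hn.ne']
      obtain ⟨x, hx1, hx2, hx3⟩ := key e ((‖φ‖⁻¹ : ℝ) • φ) (min ε (ε / ‖φ‖))
        (lt_min hε (by positivity)) he hf
      refine ⟨x, hx1, ?_, ?_⟩
      · have h1 : ((‖φ‖⁻¹ : ℝ) • φ) x = ‖φ‖⁻¹ * φ x := rfl
        rw [h1] at hx2
        have h2 : 1 - ε / ‖φ‖ ≤ ‖φ‖⁻¹ * φ x := by
          have := min_le_right ε (ε / ‖φ‖)
          linarith
        have h3 := mul_le_mul_of_nonneg_left h2 hn.le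
        have h4 : ‖φ‖ * (1 - ε / ‖φ‖) = ‖φ‖ - ε := by field_simp
        have h5 : ‖φ‖ * (‖φ‖⁻¹ * φ x) = φ x := by field_simp
        rw [h4, h5] at h3
        exact h3
      · have := min_le_left ε (ε / ‖φ‖)
        linarith
  intro e φ ε hε
  by_cases he : e = 0
  · obtain ⟨e', he'⟩ := exists_norm_eq E (show (0 : ℝ) ≤ ε / 4 by linarith)
    have he0 : e' ≠ 0 := by
      intro h0
      rw [h0, norm_zero] at he'
      linarith
    obtain ⟨x, hx1, hx2, hx3⟩ := key2 e' φ (ε / 2) (by linarith) he0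
    refine ⟨x, hx1, by linarith, ?_⟩
    rw [he, norm_zero, add_zero, add_zero]
    have h1 := norm_add_le x e'
    linarith
  · exact key2 e φ ε hε he

end Pool.Agent.Y344.Dau
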