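import Mathlib
import Pool.Agent.W700.Dau.Fin
import Pool.Agent.Y344.Dau.Sq
import Pool.Agent.Y344.Dau.Vec

/-!
# Projective tensor squares without the Daugavet property
-/

set_option autoImplicit false
set_option synthInstance.maxHeartbeats 400000

open WithLp Pool.Agent.H130R4.DA Pool.Agent.W700.Dau

namespace Pool.Agent.Y344.Dau

theorem rankOne_smulRight {E : Type*} [NormedAddCommGroup E] [NormedSpace ℝ E]
    (f : StrongDual ℝ E) (e : E) (hf : f ≠ 0) (he : e ≠ 0) : RankOne (f.smulRight e) := by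
  obtain ⟨v, hv⟩ : ∃ v, f v ≠ 0 := by
    by_contra hcon
    push Not at hcon
    exact hf (ContinuousLinearMap.ext hcon)
  have h1 : LinearMap.range ((f.smulRight e : E →L[ℝ] E) : E →ₗ[ℝ] E) = ℝ ∙ e := by
    ext w
    rw [Submodule.mem_span_singleton]
    constructor
    · rintro ⟨u, rfl⟩
      exact ⟨f u, rfl⟩
    · rintro ⟨c, rfl⟩
      refine ⟨(c / f v) • v, ?_⟩
      show f ((c / f v) • v) • e = c • e
      rw [map_smul, smul_eq_mul, div_mul_cancel₀ _ hv]
  show Module.finrank ℝ (LinearMap.range ((f.smulRight e : E →L[ℝ] E) : E →ₗ[ℝ] E)) = 1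
  rw [h1]
  exact finrank_span_singleton he

variable {B : Type} [NormedAddCommGroup B] [NormedSpace ℝ B]

/-- The quantitative failure for the two spaces. -/
theorem gap {e : B} (he : ‖e‖ = 1) (es : StrongDual ℝ B) (hes : ‖es‖ ≤ 1)
    (hese : es e = 1) : ∃ T : ProjectiveTensorProduct ℝ (XX B) (YY B) →L[ℝ]
      ProjectiveTensorProduct ℝ (XX B) (YY B), RankOne T ∧ ‖T‖ = 1 ∧
      ‖ContinuousLinearMap.id ℝ (ProjectiveTensorProduct ℝ (XX B) (YY B)) + T‖ ≤
        2 - 1 / 10 ^ 8 := by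
  obtain ⟨φ, hφ1, hφ2⟩ := exists_functional_of_bilin (B1 es hes) 1 zero_le_one
    (B1_norm es hes)
  have hφn : ‖φ‖ = 1 := by
    refine le_antisymm hφ1 ?_
    set x1 : XX B := fun _ => e with hx1
    set y1 : YY B := fun _ => toLp 1 (fun _ => e, 0) with hy1
    have hx : ‖x1‖ ≤ 1 := (pi_norm_le_iff_of_nonneg zero_le_one).2 fun _ => he.le
    have hy : ‖y1‖ ≤ 1 := norm_YY_le fun θ => by
      rw [hy1, norm_AA, norm_zero, add_zero]
      exact norm_fun_le fun _ => he.le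
    have h1 : φ (incl (ProjTensor.tmul ℝ x1 y1)) = 1 := by
      rw [hφ2, B1_apply]
      have h2 : ystar es y1 = 1 := by
        unfold ystar
        have h3 : ∀ θ : J, es ((y1 θ).fst (0, 0)) = 1 := fun θ => hese
        rw [Finset.sum_congr rfl fun θ _ => h3 θ, Finset.sum_const, Finset.card_univ]
        norm_num [Fintype.card_fun]
      rw [h2, one_mul]
      exact hese
    have h3 := φ.le_opNorm (incl (ProjTensor.tmul ℝ x1 y1))
    rw [h1, norm_one, norm_incl] at h3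
    have h4 : ‖ProjTensor.tmul ℝ x1 y1‖ ≤ 1 := by
      refine (norm_tmul_le _ _).trans ?_
      calc ‖x1‖ * ‖y1‖ ≤ 1 * 1 := mul_le_mul hx hy (norm_nonneg _) zero_le_one
        _ = 1 := one_mul 1
    calc 1 ≤ ‖φ‖ * ‖ProjTensor.tmul ℝ x1 y1‖ := h3
      _ ≤ ‖φ‖ * 1 := mul_le_mul_of_nonneg_left h4 (norm_nonneg _)
      _ = ‖φ‖ := mul_one _
  have hu := norm_u0 he es hes hese
  have h3 : ‖ContinuousLinearMap.id ℝ (ProjectiveTensorProduct ℝ (XX B) (YY B)) +
      φ.smulRight (u0 e)‖ ≤ 2 - 1 / 10 ^ 8 := by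
    refine ContinuousLinearMap.opNorm_le_bound _ (by norm_num) fun w => ?_
    obtain ⟨ψ, hψ1, hψ2⟩ := exists_dual_vector'' ℝ
      ((ContinuousLinearMap.id ℝ (ProjectiveTensorProduct ℝ (XX B) (YY B)) +
      φ.smulRight (u0 e)) w)
    have h4 : ‖ψ + ψ (u0 e) • φ‖ ≤ 2 - 1 / 10 ^ 8 := by
      refine norm_le_of_unit _ _ (by norm_num) fun x y hx hy => ?_
      have h5 := elem_bound he es hes ψ hψ1 x y hx hy
      have h6 : (ψ + ψ (u0 e) • φ) (incl (ProjTensor.tmul ℝ x y)) =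
          ψ (incl (ProjTensor.tmul ℝ x y)) + ystar es y * es (x 0) * ψ (u0 e) := by
        have h7 : (ψ + ψ (u0 e) • φ) (incl (ProjTensor.tmul ℝ x y)) =
          ψ (incl (ProjTensor.tmul ℝ x y)) + ψ (u0 e) * φ (incl (ProjTensor.tmul ℝ x y)) := rfl
        rw [h7, hφ2, B1_apply]
        ring
      rw [h6]
      exact h5
    have h8 : (ContinuousLinearMap.id ℝ (ProjectiveTensorProduct ℝ (XX B) (YY B)) +
      φ.smulRight (u0 e)) w = w + φ w • u0 e := rfl
    rw [h8] at hψ2 ⊢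
    have h9 : ψ (w + φ w • u0 e) = (ψ + ψ (u0 e) • φ) w := by
      have h10 : (ψ + ψ (u0 e) • φ) w = ψ w + ψ (u0 e) * φ w := rfl
      rw [map_add, map_smul, smul_eq_mul, h10]
      ring
    rw [h9] at hψ2
    have h11 := (ψ + ψ (u0 e) • φ).le_of_opNorm_le h4 w
    rw [hψ2] at h11
    simpa using h11
  refine ⟨φ.smulRight (u0 e), rankOne_smulRight φ (u0 e) ?_ ?_, ?_, h3⟩
  · intro h0
    rw [h0, norm_zero] at hφn
    exact zero_ne_one hφn
  · intro h0
    rw [h0, norm_zero] at hu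
    exact zero_ne_one hu
  · rw [ContinuousLinearMap.norm_smulRight_apply, hφn, hu, one_mul]

/-- The quantitative failure for the tensor square of the `l_1`-sum of the two spaces. -/
theorem gap_square [Nontrivial B] :
    ∃ T : ProjectiveTensorProduct ℝ (WithLp 1 (XX B × YY B)) (WithLp 1 (XX B × YY B)) →L[ℝ]
      ProjectiveTensorProduct ℝ (WithLp 1 (XX B × YY B)) (WithLp 1 (XX B × YY B)),
      RankOne T ∧ ‖T‖ = 1 ∧
      ‖ContinuousLinearMap.id ℝ (ProjectiveTensorProduct ℝ (WithLp 1 (XX B × YY B))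
        (WithLp 1 (XX B × YY B))) + T‖ ≤ 2 - 1 / 10 ^ 8 := by
  obtain ⟨e, he⟩ := exists_norm_eq B (zero_le_one (α := ℝ))
  obtain ⟨es, hes, hese⟩ := exists_dual_vector ℝ e (by rw [he]; exact one_ne_zero)
  have hese' : es e = 1 := by rw [hese, he]; norm_num
  obtain ⟨T, hT1, hT2, hT3⟩ := gap he es hes.le hese'
  obtain ⟨h1, h2, h3⟩ := transfer (tin ℝ (XX B) (YY B)) (tpr ℝ (XX B) (YY B)) (tpr_tin ℝ)
    (norm_tin_le ℝ) (tensor_L ℝ) T hT1
  exact ⟨_, h1, h2.trans hT2, h3.trans (max_le (by norm_num) hT3)⟩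

theorem not_daugavet_of_gap {V : Type*} [NormedAddCommGroup V] [NormedSpace ℝ V]
    (h : ∃ T : V →L[ℝ] V, RankOne T ∧ ‖T‖ = 1 ∧
      ‖ContinuousLinearMap.id ℝ V + T‖ ≤ 2 - 1 / 10 ^ 8) : ¬ DaugavetProperty ℝ V := by
  rintro hD
  obtain ⟨T, h1, h2, h3⟩ := h
  have h4 := hD T h1
  rw [h2] at h4
  rw [h4] at h3
  norm_num at h3

/-- The sum has the Daugavet property if `B` has it. -/
theorem dp_sum (h : DP B) : DP (WithLp 1 (XX B × YY B)) :=
  h.pi.prodL1 (h.pi.prodL1 h).pi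

/-- The diagonal embedding. -/
noncomputable def diag (B : Type) [NormedAddCommGroup B] [NormedSpace ℝ B] :
    B →ₗᵢ[ℝ] WithLp 1 (XX B × YY B) where
  toFun b := toLp 1 ((fun _ => b), 0)
  map_add' a b := by
    rw [← toLp_add, Prod.mk_add_mk, add_zero]
    rfl
  map_smul' c a := by
    rw [RingHom.id_apply, ← toLp_smul, Prod.smul_mk, smul_zero]
    rfl
  norm_map' b := by
    show ‖toLp 1 ((fun _ : I => b), (0 : YY B))‖ = ‖b‖
    rw [WithLp.norm_toLp_fst 1 (XX B) (YY B)]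
    exact pi_norm_const b

/-- The projection onto the first coordinate. -/
noncomputable def coo (B : Type) [NormedAddCommGroup B] [NormedSpace ℝ B] :
    WithLp 1 (XX B × YY B) →L[ℝ] B :=
  (ContinuousLinearMap.proj (0 : I)).comp (prL ℝ (XX B) (YY B))

theorem coo_diag (b : B) : coo B (diag B b) = b := rfl

theorem norm_coo_le : ‖coo B‖ ≤ 1 := by
  refine ContinuousLinearMap.opNorm_le_bound _ zero_le_one fun z => ?_
  show ‖z.fst 0‖ ≤ 1 * ‖z‖
  rw [one_mul, l1_norm]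
  have := norm_le_pi_norm z.fst 0
  linarith [norm_nonneg z.snd]

end Pool.Agent.Y344.Dau
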